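import Pool.Agent.Q230.AP.Main

/-!
# The affine polynomial projection problem is hard for the existential theory of the reals

Sketch of the proof.  A system `S` of constraints is turned into a quartic form `g` with integer
coefficients that takes a positive value if and only if `S` is satisfiable: `g` is `(t x₀)²` minus
the sum of the squares of homogenized constraints, where `t` is the last member of a long chain of
squarings, and a root bound shows that `g` is nowhere positive if `S` is unsatisfiable.  If
`g(v) > 0` then `x₀⁴ = g(A x)` for a matrix `A` of rank one; conversely, if `x₀⁴ = g(A x + b)` for
all `x` then `g` takes the value `1`.  So hardness holds already for `f = x₀⁴` and quartic forms `g`.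
-/

namespace Pool.Agent.Results.MP_ca1301_lc.AffineProjectionHard

open Pool.Agent.NPC Pool.Agent.NPC.ER Pool.Agent.Q230.AP

/-- The affine polynomial projection problem is `∃ℝ`-hard under polynomial-time many-one
reductions. -/
theorem result : ERHard (lang AffineProjection) := Pool.Agent.NPC.Q230AP.proj_hard

end Pool.Agent.Results.MP_ca1301_lc.AffineProjectionHard
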